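import Pool.Agent.TH962.DL.Tail

/-!
# The certificate
-/

set_option autoImplicit false

open Real Pool.Agent.H337R2

namespace Pool.Agent.TH844.DL

/-! ### Cells with a right side that is linear in the left end point -/

/-- the last element of `x0 :: t` -/
def lst (x0 : ℤ) : List ℤ → ℤ
  | [] => x0
  | x1 :: t => lst x1 t

/-- check the cells between the consecutive elements of `x0 :: t` -/
def chkV (M : ℕ) (l : List (ℤ × ℤ)) (A B : ℤ) (x0 : ℤ) : List ℤ → Bool
  | [] => true
  | x1 :: t => cellOK M l (A + B * x0) x0 x1 && chkV M l A B x1 t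

theorem chkV_spec {Dc M : ℕ} (hD : 0 < Dc) (hM : 1 ≤ M) (hM2 : M < 2 ^ 20) {l : List (ℤ × ℤ)}
    {A B : ℤ} (hB : 0 ≤ B) (t : List ℤ) : ∀ x0 : ℤ, t ≠ [] → chkV M l A B x0 t = true →
      ∀ w : ℝ, (x0 : ℝ) ≤ w → w ≤ (lst x0 t : ℤ) →
        EF Dc M l (w / M) ≤ (A + B * w) / (10 ^ 12 * Dc * M) := by
  have hD' : (0 : ℝ) < Dc := by exact_mod_cast hD
  have hM' : (0 : ℝ) < M := by exact_mod_cast (by omega : 0 < M)
  have hB' : (0 : ℝ) ≤ B := by exact_mod_cast hB
  have hp : (0 : ℝ) < 10 ^ 12 * Dc * M := by positivity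
  induction t with
  | nil => intro x0 h; exact absurd rfl h
  | cons x1 t ih =>
    intro x0 _ h w h0 h1
    rw [chkV, Bool.and_eq_true] at h
    rcases le_or_gt w (x1 : ℝ) with hw | hw
    · have h2 := cellOK_spec hD hM hM2 h.1 (((A + B * x0 : ℤ) : ℝ) / (10 ^ 12 * Dc * M))
        (by rw [div_mul_cancel₀ _ hp.ne']) w h0 hw
      refine h2.trans (div_le_div_of_nonneg_right ?_ hp.le)
      push_cast
      have := mul_le_mul_of_nonneg_left h0 hB'
      linarith
    · rcases eq_or_ne t [] with ht | ht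
      · subst ht
        exfalso
        have : lst x0 [x1] = x1 := rfl
        rw [this] at h1
        linarith
      · exact ih x1 ht h.2 w hw.le h1

/-- the terms -/
def lC : List (ℤ × ℤ) :=
  [(2864, 0), (-2478, 10), (-260, 160), (-78, 510), (-48, 1080), (-32, 2050), (-22, 3650),
    (-12, 5520), (-12, 8440), (-8, 11620), (-14, 16830), (200, -1000), (-100, -5000)]

/-- the break points -/
def brk : List ℤ :=
  [10, 17, 24, 35, 52, 81, 131, 160, 189, 215, 245, 284, 337, 406, 481, 510, 551, 591, 637,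
    693, 765, 855, 958, 1056, 1080, 1134, 1184, 1235, 1292, 1359, 1441, 1541, 1661, 1797,
    1937, 2049, 2050, 2124, 2190, 2255, 2322, 2395, 2477, 2572, 2683, 2813, 2963, 3131, 3311,
    3488, 3635, 3650, 3743, 3823, 3897, 3967, 4036, 4106, 4179, 4256, 4339, 4429, 4528, 4636,
    4754, 4882, 5019, 5161, 5303, 5435, 5520, 5603, 5679, 5752, 5824, 5896, 5971, 6050, 6134,
    6225, 6325, 6436, 6559, 6696, 6848, 7016, 7200, 7399, 7610, 7828, 8045, 8248, 8417, 8440,
    8554, 8653, 8743, 8827, 8906, 8983, 9059, 9134, 9210, 9288, 9368, 9451, 9538, 9629, 9726,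
    9829, 9938, 10055, 10180, 10313, 10454, 10603, 10759, 10920, 11084, 11247, 11403, 11544,
    11620, 11715, 11801, 11882, 11960, 12036, 12112, 12189, 12268, 12350, 12437, 12529, 12627,
    12733, 12849, 12976, 13116, 13270, 13441, 13632, 13844, 14079, 14339, 14624, 14934, 15265,
    15611, 15962, 16302, 16606, 16830, 16983, 17112, 17226, 17331, 17430, 17527, 17624, 17723,
    17826, 17936, 18056, 18190, 18343, 18521, 18732, 18987, 19302, 19698, 20203, 20855, 21703,
    22810, 24257, 26000]

theorem chk_C : chkV 1000 lC (-138000000000000000) 69310000000000 0 brk = true := by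
  decide +kernel

theorem lst_C : lst 0 brk = 26000 := by
  decide +kernel

theorem EF_C (v : ℝ) : EF 100 1000 lC v = 2 * UU v + Ph v := by
  unfold EF lC UU Ph
  simp only [Finset.sum_range_succ, Finset.sum_range_zero, dd, kk, List.map_cons, List.map_nil,
    List.sum_cons, List.sum_nil, List.getD_cons_zero, List.getD_cons_succ]
  norm_num
  ring_nf

theorem A_cert : S_cert := by
  intro v h0 h1
  rw [← EF_C]
  have h := chkV_spec (Dc := 100) (M := 1000) (by norm_num) (by norm_num) (by norm_num)
    (by norm_num) brk 0 (by simp [brk]) chk_C (v * 1000) (by push_cast; linarith)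
    (by rw [lst_C]; push_cast; linarith)
  have e : v * 1000 / ((1000 : ℕ) : ℝ) = v := by push_cast; field_simp
  rw [e] at h
  refine h.trans (le_of_eq ?_)
  push_cast
  ring

end Pool.Agent.TH844.DL
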