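import Pool.Agent.TH844.DL.Defs

/-!
# The tail and the energy constant
-/

set_option autoImplicit false

open Real Pool.Agent.H337R2

namespace Pool.Agent.TH844.DL

/-! ### The tail -/

/-- `Ψ(x) - Ψ(y) ≤ (x - y) log x` for `0 < y ≤ x` -/
theorem Psi_sub_le {x y : ℝ} (hy : 0 < y) (hxy : y ≤ x) :
    Psi x - Psi y ≤ (x - y) * Real.log x := by
  have hx : 0 < x := lt_of_lt_of_le hy hxy
  have h := Real.log_le_sub_one_of_pos (show 0 < x / y by positivity)
  rw [Real.log_div hx.ne' hy.ne'] at h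
  have h2 : y * (Real.log x - Real.log y) ≤ y * (x / y - 1) := mul_le_mul_of_nonneg_left h hy.le
  have h3 : y * (x / y - 1) = x - y := by field_simp
  unfold Psi
  nlinarith

/-- `(x - y) log y ≤ Ψ(x) - Ψ(y)` for `0 < y ≤ x` -/
theorem le_Psi_sub {x y : ℝ} (hy : 0 < y) (hxy : y ≤ x) :
    (x - y) * Real.log y ≤ Psi x - Psi y := by
  have hx : 0 < x := lt_of_lt_of_le hy hxy
  have h := Real.log_le_sub_one_of_pos (show 0 < y / x by positivity)
  rw [Real.log_div hy.ne' hx.ne'] at h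
  have h2 : x * (Real.log y - Real.log x) ≤ x * (y / x - 1) := mul_le_mul_of_nonneg_left h hx.le
  have h3 : x * (y / x - 1) = y - x := by field_simp
  unfold Psi
  nlinarith

theorem log26 : Real.log 26 ≤ 3.2785 := by
  have h1 : Real.log 26 = 5 * Real.log 2 + Real.log (13 / 16) := by
    have : (26 : ℝ) = 2 ^ 5 * (13 / 16) := by norm_num
    rw [this, Real.log_mul (by norm_num) (by norm_num), Real.log_pow]
    norm_num
  have h2 : Real.log (13 / 16) ≤ 13 / 16 - 1 := Real.log_le_sub_one_of_pos (by norm_num)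
  have h3 := Real.log_two_lt_d9
  rw [h1]
  linarith

theorem brick_le {v a b : ℝ} (hab : a ≤ b) (ha : 0 ≤ a) (hb : b < v) :
    Psi (v - a) - Psi (v - b) ≤ (b - a) * Real.log v := by
  have h := Psi_sub_le (x := v - a) (y := v - b) (by linarith) (by linarith)
  have h2 : Real.log (v - a) ≤ Real.log v := Real.log_le_log (by linarith) (by linarith)
  have h3 : (b - a) * Real.log (v - a) ≤ (b - a) * Real.log v :=
    mul_le_mul_of_nonneg_left h2 (by linarith)
  have e : v - a - (v - b) = b - a := by ring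
  rw [e] at h
  linarith

theorem A_tail : S_tail := by
  intro v hv
  have hv0 : 0 < v := by linarith
  have hlog0 : 0 ≤ Real.log v := Real.log_nonneg (by linarith)
  have hU : UU v ≤ 4 * Real.log v := by
    have h : ∀ i ∈ Finset.range 10, (dd i : ℝ) / 100 * (Psi (v - kk i / 100) - Psi (v - kk (i + 1) / 100)) ≤
        (dd i : ℝ) / 100 * (((kk (i + 1) : ℝ) / 100 - kk i / 100) * Real.log v) := by
      intro i hi
      apply mul_le_mul_of_nonneg_left _ (by positivity)
      have hi' : i < 10 := Finset.mem_range.1 hi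
      have h1 : kk i ≤ kk (i + 1) := by
        interval_cases i <;> decide
      have h2 : kk (i + 1) ≤ 1683 := by
        interval_cases i <;> decide
      have h1' : (kk i : ℝ) ≤ kk (i + 1) := by exact_mod_cast h1
      have h2' : (kk (i + 1) : ℝ) ≤ 1683 := by exact_mod_cast h2
      exact brick_le (by linarith) (by positivity) (by linarith)
    unfold UU
    refine (Finset.sum_le_sum h).trans (le_of_eq ?_)
    simp only [Finset.sum_range_succ, Finset.sum_range_zero, dd, kk,
      List.getD_cons_zero, List.getD_cons_succ]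
    push_cast
    ring
  have hP : Ph v ≤ -3 * Real.log v := by
    have h1 := Psi_sub_le (x := v + 1) (y := v) hv0 (by linarith)
    have h2 := le_Psi_sub (x := v + 5) (y := v + 1) (by linarith) (by linarith)
    have h3 : Real.log v ≤ Real.log (v + 1) := Real.log_le_log hv0 (by linarith)
    have e1 : v + 1 - v = 1 := by ring
    have e2 : v + 5 - (v + 1) = 4 := by ring
    rw [e1] at h1
    rw [e2] at h2
    unfold Ph
    linarith
  have hl : Real.log v ≤ Real.log 26 + (v - 26) / 26 := by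
    have h := Real.log_le_sub_one_of_pos (show 0 < v / 26 by positivity)
    rw [Real.log_div hv0.ne' (by norm_num)] at h
    have : v / 26 - 1 = (v - 26) / 26 := by ring
    linarith
  have h26 := log26
  have : 2 * UU v + Ph v ≤ 5 * Real.log v := by linarith
  have h5 : 5 * Real.log v ≤ 5 * (3.2785 + (v - 26) / 26) := by linarith
  norm_num at *
  linarith

/-! ### The energy constant -/

/-- integer approximation of `2 * 10 ^ 16 * GG (m / 100)` -/
def gA (m : ℤ) : ℤ := m ^ 2 * (lnA m.natAbs - lnA 100 - 1500000000000)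

theorem gA_spec (m : ℤ) (hm : m.natAbs < 2 ^ 20) :
    |2 * 10 ^ 16 * GG ((m : ℝ) / 100) - (gA m : ℝ)| ≤ 40000 * (m : ℝ) ^ 2 := by
  rcases eq_or_ne m 0 with h | h
  · subst h
    simp [GG, gA]
  · have h1 := lnA_spec m.natAbs (by omega) hm
    have h2 := lnA_spec 100 (by norm_num) (by norm_num)
    have hc : ((m.natAbs : ℕ) : ℝ) = |(m : ℝ)| := by
      have h3 : ((m.natAbs : ℕ) : ℤ) = |m| := Int.natCast_natAbs _
      calc ((m.natAbs : ℕ) : ℝ) = (((m.natAbs : ℕ) : ℤ) : ℝ) := by rw [Int.cast_natCast]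
        _ = ((|m| : ℤ) : ℝ) := by rw [h3]
        _ = _ := by push_cast; rfl
    rw [hc, Real.log_abs] at h1
    have hm0 : (m : ℝ) ≠ 0 := by exact_mod_cast h
    have e : 2 * 10 ^ 16 * GG ((m : ℝ) / 100) - (gA m : ℝ) =
        (m : ℝ) ^ 2 * ((10 ^ 12 * Real.log m - lnA m.natAbs) -
          (10 ^ 12 * Real.log (100 : ℕ) - lnA 100)) := by
      unfold GG gA
      rw [Real.log_div hm0 (by norm_num)]
      push_cast
      ring
    rw [e, abs_mul, abs_of_nonneg (sq_nonneg (m : ℝ)), mul_comm]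
    apply mul_le_mul_of_nonneg_right _ (sq_nonneg _)
    refine (abs_sub _ _).trans ?_
    simp only [lnE] at h1 h2
    push_cast at h1 h2 ⊢
    linarith

/-- lower bound for the `(i, j)` term -/
def qT (i j : ℕ) : ℤ :=
  ((dd i * dd j : ℕ) : ℤ) * (gA ((kk (i + 1) : ℤ) - kk j) - gA ((kk i : ℤ) - kk j) -
    gA ((kk (i + 1) : ℤ) - kk (j + 1)) + gA ((kk i : ℤ) - kk (j + 1)) -
    40000 * (((kk (i + 1) : ℤ) - kk j) ^ 2 + ((kk i : ℤ) - kk j) ^ 2 +
      ((kk (i + 1) : ℤ) - kk (j + 1)) ^ 2 + ((kk i : ℤ) - kk (j + 1)) ^ 2))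

/-- sums over ranges of lists -/
def sm (f : ℕ → ℤ) : ℕ → ℤ
  | 0 => 0
  | n + 1 => sm f n + f n

theorem sm_eq (f : ℕ → ℤ) (n : ℕ) : sm f n = ∑ i ∈ Finset.range n, f i := by
  induction n with
  | zero => rfl
  | succ n ih => rw [Finset.sum_range_succ, ← ih]; rfl

theorem qT_check : 3000000000000000000000 ≤ sm (fun i => sm (fun j => qT i j) 10) 10 := by
  decide +kernel

theorem kk_le (i : ℕ) : kk i ≤ 1683 := by
  rcases Nat.lt_or_ge i 11 with h | h
  · interval_cases i <;> decide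
  · unfold kk
    rw [List.getD_eq_default _ _ (by simpa using h)]
    norm_num

theorem qT_spec (i j : ℕ) : (qT i j : ℝ) ≤ 2 * 10 ^ 20 * (((dd i : ℝ) / 100) * ((dd j : ℝ) / 100) *
    (GG ((kk (i + 1) : ℝ) / 100 - kk j / 100) - GG ((kk i : ℝ) / 100 - kk j / 100) -
      GG ((kk (i + 1) : ℝ) / 100 - kk (j + 1) / 100) + GG ((kk i : ℝ) / 100 - kk (j + 1) / 100))) := by
  have key : ∀ a b : ℕ, |2 * 10 ^ 16 * GG ((kk a : ℝ) / 100 - kk b / 100) -
      (gA ((kk a : ℤ) - kk b) : ℝ)| ≤ 40000 * ((kk a : ℝ) - kk b) ^ 2 := by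
    intro a b
    have h1 := kk_le a
    have h2 := kk_le b
    have := gA_spec ((kk a : ℤ) - kk b) (by omega)
    have e : (((kk a : ℤ) - kk b : ℤ) : ℝ) / 100 = (kk a : ℝ) / 100 - kk b / 100 := by
      push_cast; ring
    rw [e] at this
    push_cast at this ⊢
    exact this
  have k1 := abs_le.1 (key (i + 1) j)
  have k2 := abs_le.1 (key i j)
  have k3 := abs_le.1 (key (i + 1) (j + 1))
  have k4 := abs_le.1 (key i (j + 1))
  set g1 := GG ((kk (i + 1) : ℝ) / 100 - kk j / 100)
  set g2 := GG ((kk i : ℝ) / 100 - kk j / 100)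
  set g3 := GG ((kk (i + 1) : ℝ) / 100 - kk (j + 1) / 100)
  set g4 := GG ((kk i : ℝ) / 100 - kk (j + 1) / 100)
  have hd : (0 : ℝ) ≤ (dd i : ℝ) * dd j := by positivity
  have e1 : 2 * 10 ^ 20 * (((dd i : ℝ) / 100) * ((dd j : ℝ) / 100) * (g1 - g2 - g3 + g4)) =
      ((dd i : ℝ) * dd j) * (2 * 10 ^ 16 * g1 - 2 * 10 ^ 16 * g2 - 2 * 10 ^ 16 * g3 +
        2 * 10 ^ 16 * g4) := by ring
  rw [e1]
  unfold qT
  push_cast
  apply mul_le_mul_of_nonneg_left _ hd
  linarith [k1.1, k2.2, k3.2, k4.1]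

theorem A_QQ : S_QQ := by
  have h : (3000000000000000000000 : ℝ) ≤ 2 * 10 ^ 20 * QQ := by
    have h1 : (3000000000000000000000 : ℝ) ≤ ((sm (fun i => sm (fun j => qT i j) 10) 10 : ℤ) : ℝ) := by
      exact_mod_cast qT_check
    refine h1.trans ?_
    rw [sm_eq]
    simp only [sm_eq]
    unfold QQ
    rw [Finset.mul_sum]
    push_cast
    apply Finset.sum_le_sum
    intro i _
    rw [Finset.mul_sum]
    apply Finset.sum_le_sum
    intro j _
    exact qT_spec i j
  show 15 ≤ QQ
  linarith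

end Pool.Agent.TH844.DL
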